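import Pool.Agent.H85R3.MinEx4

/-! Closed embedded minimal submanifolds of spheres of small codimension whose first Laplace
eigenvalue is smaller than the dimension: products of a sphere with a flat minimal torus. -/

set_option autoImplicit false

namespace Pool.Agent.Results.MP_b0f4c2_gt.SmallEigenvalue

open Pool.Agent.H85R3.Minimal

/-- For every `c < 1` and every `c'` there is a closed connected embedded minimal submanifold `M` of
dimension `d` of the unit sphere `S^(n+1) ⊆ ℝ^(n+2)` with `d ≥ c n + c'` and with a positive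
Laplace eigenvalue `d / 25`; in particular its first eigenvalue is smaller than `d`. The case
`c = 2/3`, `c' = 1` is the negation of the question. -/
theorem result : ∀ c c' : ℝ, c < 1 → ∃ (n d : ℕ) (M : Set (E (n + 2))),
    IsClosedSubmanifold d M ∧ IsMinimalInSphere d M ∧ c * n + c' ≤ d ∧ 0 < d ∧
      IsEigenvalue d M ((d : ℝ) / 25) ∧ firstEigenvalue d M ≤ (d : ℝ) / 25 ∧
      firstEigenvalue d M ≠ d := by
  intro c c' hc
  obtain ⟨k, hk⟩ := exists_nat_gt ((c * 5 + c' - 2) / (1 - c))
  have hc' : 0 < 1 - c := by linarith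
  rw [div_lt_iff₀ hc'] at hk
  -- the dimension of the sphere factor
  set a : ℕ := k + 1 with ha'
  have ha : 1 ≤ a := by omega
  have hcast : (((a + 2 : ℕ) : ℝ)) = (a : ℝ) + 2 := by push_cast; ring
  have hev : IsEigenvalue (a + 2) (Mset a) (((a + 2 : ℕ) : ℝ) / 25) := by
    rw [hcast]
    exact isEigenvalue_Mset ha
  have hfe : firstEigenvalue (a + 2) (Mset a) ≤ ((a + 2 : ℕ) : ℝ) / 25 := by
    refine csInf_le ⟨0, fun μ hμ => hμ.1.le⟩ ⟨by positivity, hev⟩
  refine ⟨a + 5, a + 2, Mset a, isClosedSubmanifold_Mset ha, isMinimal_Mset ha, ?_, by omega,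
    hev, hfe, ?_⟩
  · rw [ha']
    push_cast
    nlinarith
  · have h1 : (0 : ℝ) < ((a + 2 : ℕ) : ℝ) := by positivity
    intro h2
    rw [h2] at hfe
    linarith

end Pool.Agent.Results.MP_b0f4c2_gt.SmallEigenvalue
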